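import Mathlib
import Pool.Agent.Two9.Hered

/-!
# The number of graphs with non-reconstructible truncated clique lattice

For every `ε > 0` and all large `n`, at most `2 ^ ((2 / 9 + ε) n ^ 2)` graphs `G` on the vertex set
`Fin n` have a truncated clique lattice `T(G)` which is not reconstructible from its deck of
maximal filter deleted subsets.
-/

set_option autoImplicit false

namespace Pool.Agent.Results.MP_552896_co.FewExceptions

/-- The truncated clique lattice `T(G)` is reconstructible: every truncated clique lattice `T(H)`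
with the same deck of maximal filter deleted subsets is isomorphic to `T(G)`. -/
def Reconstructible {V : Type} [Fintype V] (G : SimpleGraph V) : Prop :=
  ∀ (W : Type) [Fintype W] (H : SimpleGraph W) (f : V ≃ W),
    (∀ v : V,
      Nonempty ({s : Finset V // s.Nonempty ∧ G.IsClique (s : Set V) ∧ v ∉ s} ≃o
        {t : Finset W // t.Nonempty ∧ H.IsClique (t : Set W) ∧ f v ∉ t})) →
    Nonempty ({s : Finset V // s.Nonempty ∧ G.IsClique (s : Set V)} ≃o
      {t : Finset W // t.Nonempty ∧ H.IsClique (t : Set W)})

theorem result : ∀ ε : ℝ, 0 < ε → ∃ n₀ : ℕ, ∀ n : ℕ, n₀ ≤ n →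
    -- the number of the graphs on `Fin n` with non-reconstructible truncated clique lattice
    (Nat.card {G : SimpleGraph (Fin n) // ¬ Reconstructible G} : ℝ) ≤
      2 ^ ((2 / 9 + ε) * (n : ℝ) ^ 2) := by
  intro ε hε
  obtain ⟨n₀, hn₀⟩ := Pool.Agent.Two9.main ε hε
  exact ⟨n₀, fun n hn => (hn₀ n hn).1⟩

end Pool.Agent.Results.MP_552896_co.FewExceptions
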