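import Mathlib
import Pool.Agent.Lib.Recon.LocalFinal

/-!
# Reconstruction of truncated clique lattices of graphs with large local differences

Two vertices `u`, `v` of a graph `G` are *twins* if they have the same neighbours among the other
vertices; a vertex `w` different from `u` and `v` *distinguishes* them if it is adjacent to exactly
one of them. Let `G` be a connected graph (or a graph with connected complement) on at least three
vertices, let `Δ` bound the degrees of `G` (of its complement, respectively), and let `s` bound the
sizes of the twin classes. If any two vertices that are not twins are distinguished by at least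
`8 (s + 1) (log₂ Δ)²` vertices, then the truncated clique lattice `T(G)` is reconstructible from
its deck of maximal filter deleted subsets. The bound does not depend on the number of vertices.
-/

set_option autoImplicit false

namespace Pool.Agent.Results.MP_552896_co.LocalDifferences

theorem result (V : Type) [Fintype V] (G : SimpleGraph V) (hn : 3 ≤ Fintype.card V) (Δ s : ℕ)
    -- `G` or its complement is connected with maximum degree at most `Δ`
    (hdeg : (G.Connected ∧ ∀ v, (G.neighborSet v).ncard ≤ Δ) ∨
      (Gᶜ.Connected ∧ ∀ v, (Gᶜ.neighborSet v).ncard ≤ Δ))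
    -- the twin class of every vertex has at most `s` elements
    (hsize : ∀ u, {v | ∀ w, w ≠ u → w ≠ v → (G.Adj w u ↔ G.Adj w v)}.ncard ≤ s)
    -- any two vertices are equal, or twins, or distinguished by many vertices
    (hdiff : ∀ u v, (∀ w, w ≠ u → w ≠ v → (G.Adj w u ↔ G.Adj w v)) ∨
      8 * ((s : ℝ) + 1) * (Real.logb 2 Δ) ^ 2 ≤
        {w | w ≠ u ∧ w ≠ v ∧ ¬ (G.Adj w u ↔ G.Adj w v)}.ncard) :
    -- every truncated clique lattice with the same deck as `T(G)` is isomorphic to `T(G)`
    ∀ (W : Type) [Fintype W] (H : SimpleGraph W) (f : V ≃ W),
      (∀ v : V,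
        Nonempty ({s : Finset V // s.Nonempty ∧ G.IsClique (s : Set V) ∧ v ∉ s} ≃o
          {t : Finset W // t.Nonempty ∧ H.IsClique (t : Set W) ∧ f v ∉ t})) →
      Nonempty ({s : Finset V // s.Nonempty ∧ G.IsClique (s : Set V)} ≃o
        {t : Finset W // t.Nonempty ∧ H.IsClique (t : Set W)}) :=
  fun _ _ H f hdeck => Pool.Agent.Lib.Recon.local_clique G hn Δ s hdeg hsize hdiff H f hdeck

end Pool.Agent.Results.MP_552896_co.LocalDifferences
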