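import Mathlib
import Pool.Agent.LPF.Main

/-!
# Reconstruction of truncated clique lattices of large graphs of bounded tree-depth

For every `t`, the truncated clique lattice of every sufficiently large finite graph such that all
its paths, or all paths of its complement, have fewer than `t` edges is reconstructible from its
deck of maximal filter deleted subsets.
-/

set_option autoImplicit false

namespace Pool.Agent.Results.MP_552896_co.TreeDepth

theorem result (t : ℕ) :
    ∃ N : ℕ, ∀ (V : Type) [Fintype V] (G : SimpleGraph V), N ≤ Fintype.card V →
      -- all paths of `G`, or all paths of the complement of `G`, have fewer than `t` edges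
      ((∀ (u v : V) (p : G.Walk u v), p.IsPath → p.length < t) ∨
        (∀ (u v : V) (p : Gᶜ.Walk u v), p.IsPath → p.length < t)) →
      -- every truncated clique lattice with the same deck as `T(G)` is isomorphic to `T(G)`
      ∀ (W : Type) [Fintype W] (H : SimpleGraph W) (f : V ≃ W),
        (∀ v : V,
          Nonempty ({s : Finset V // s.Nonempty ∧ G.IsClique (s : Set V) ∧ v ∉ s} ≃o
            {c : Finset W // c.Nonempty ∧ H.IsClique (c : Set W) ∧ f v ∉ c})) →
        Nonempty ({s : Finset V // s.Nonempty ∧ G.IsClique (s : Set V)} ≃o
          {c : Finset W // c.Nonempty ∧ H.IsClique (c : Set W)}) :=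
  Pool.Agent.LPF.main' t

end Pool.Agent.Results.MP_552896_co.TreeDepth
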